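import Pool.Agent.helper59.FI.SpecB

/-!
# Project fi, row EXA: extension of a subpair, first step
-/

set_option autoImplicit false

namespace Pool.Agent.FI

open Pool.Agent.helper58.DC Pool.Agent.DI Pool.Agent.GR Pool.Agent.OB

/-- a Sylow subgroup of `K` which contains the `p`-subgroup `R` -/
theorem EXA_syl (p : ℕ) [Fact p.Prime] {G : Type} [Group G] [Finite G] (K R : Subgroup G) (hR : IsPGroup p R) (hRK : R ≤ K) :
    ∃ Q : Subgroup G, R ≤ Q ∧ Q ≤ K ∧ IsPGroup p Q ∧ Nat.card Q = p ^ padicValNat p (Nat.card K) := by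
  have hR' : IsPGroup p (R.subgroupOf K) := hR.comap_subtype
  obtain ⟨S, hS⟩ := hR'.exists_le_sylow
  refine ⟨(S : Subgroup K).map K.subtype, ?_, Subgroup.map_subtype_le _, S.isPGroup'.map _, ?_⟩
  · intro r hr
    exact Subgroup.mem_map.2 ⟨⟨r, hRK hr⟩, hS (by rw [Subgroup.mem_subgroupOf]; exact hr), rfl⟩
  · have h1 : Nat.card ((S : Subgroup K).map K.subtype) = Nat.card (S : Subgroup K) :=
      Nat.card_congr ((S : Subgroup K).equivMapOfInjective _ K.subtype_injective).symm.toEquiv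
    rw [h1, ← Nat.factorization_def _ (Fact.out : p.Prime)]
    exact S.card_eq_multiplicity

theorem EXA_cj_cz {G : Type} [Group G] {R : Subgroup G} {t : G} (ht : t ∈ nz R) : cj t (cz R) = cz R := by
  rw [← cj_cz, cj_nz.2 ht]

theorem EXA (hCVS : CVS_stmt) (hEXC : EXC_stmt) (hIVS : IVS_stmt) (hIDM : IDM_stmt) (hEIN : EIN_stmt) (hCCI : CCI_stmt) : EXA_stmt := by
  intro p M hS G _ _ R hR hcom θ hθ hdiv
  have : Fact p.Prime := ⟨hS.pr⟩
  have hsub : Bl M (cz R) θ ⊆ IrrOn (cz R) := fun ψ hψ => hψ.1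
  have hfI : ∀ x, IntAt M (eS (cz R) (Bl M (cz R) θ) x) :=
    hEIN p M hS G (cz R) (BR M (cz R) θ (cz R)) (BCR le_rfl θ)
  obtain ⟨hCF, hcc, -, -⟩ := hIDM G (cz R) (Bl M (cz R) θ) hsub
  have hcc1 : cc θ (eS (cz R) (Bl M (cz R) θ)) = 1 := by
    rw [hcc θ hθ, if_pos]
    exact ⟨hθ, SB.refl _ _⟩
  have hinv : ∀ t ∈ TT M R θ, ∀ x, eS (cz R) (Bl M (cz R) θ) (t * x * t⁻¹) = eS (cz R) (Bl M (cz R) θ) x := by
    intro t ht x
    refine hIVS G (cz R) (Bl M (cz R) θ) hsub t (fun ψ hψ => ?_) x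
    have e := EXA_cj_cz ht.1
    refine ⟨?_, ?_⟩
    · have h1 := IrrOn_funMap hψ.1 t
      rwa [e] at h1
    · have h1 := SB_conj hψ.2 t
      rw [e] at h1
      exact h1.trans ht.2
  obtain ⟨y, hy1, hy2⟩ := hCVS p M hS G (TT M R θ) θ (eS (cz R) (Bl M (cz R) θ)) hinv hfI
    (fun y => IntAt.of_isIntegral hS (cc_cls_int cz_le_TT hθ y)) (by rw [hcc1]; exact InM.not_one hS)
  have hyC : y ∈ cz R := by
    by_contra h
    apply hy1
    rw [hCF.2 y h]
    exact InM.zero hS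
  obtain ⟨k, hk, hkm⟩ := hEXC p M hS G (cz R) (TT M R θ) cz_le_TT (fun t ht c hc => cz_conj ht.1 hc) θ hθ
    (fun t ht => ht.2) y hyC
  have hpk : ¬ p ∣ k := by
    intro h
    apply hy2
    have h1 : InM M (k * cc θ (cls (cz R) y)) :=
      InM.mul_right hS ((InM.natCast hS k).2 h) (IntAt.of_isIntegral hS (cc_cls_int le_rfl hθ y))
    have h2 := hkm.add hS h1
    rwa [sub_add_cancel] at h2
  have hRC : R ≤ cz R := le_cz_of_com hcom
  have hRCz : R ≤ Cz (TT M R θ) y := by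
    intro r hr
    refine mem_Cz.2 ⟨cz_le_TT (hRC hr), ?_⟩
    exact ((Subgroup.mem_centralizer_iff.1 hyC) r hr).symm
  obtain ⟨R', hRR', hR'Cz, hR'p, hR'c⟩ := EXA_syl p (Cz (TT M R θ) y) R hR hRCz
  refine ⟨y, hyC, R', hR'p, hRR', hR'Cz, fun hle => ?_, hy1⟩
  -- counting
  have hle' : R' ≤ Cz (cz R) y := fun x hx => mem_Cz.2 ⟨hle hx, (mem_Cz.1 (hR'Cz hx)).2⟩
  have hCzle : Cz (cz R) y ≤ Cz (TT M R θ) y := fun x hx =>
    mem_Cz.2 ⟨cz_le_TT (mem_Cz.1 hx).1, (mem_Cz.1 hx).2⟩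
  have hdvd1 : Nat.card R' ∣ Nat.card (Cz (cz R) y) := Subgroup.card_dvd_of_le hle'
  obtain ⟨q, hq⟩ : Nat.card (Cz (cz R) y) ∣ Nat.card (Cz (TT M R θ) y) := Subgroup.card_dvd_of_le hCzle
  have hrel : Nat.card (cz R) * (cz R).relIndex (TT M R θ) = Nat.card (TT M R θ) := by
    have h1 : cz R ≤ TT M R θ := cz_le_TT
    have h2 := Subgroup.card_mul_index ((cz R).subgroupOf (TT M R θ))
    have h3 : Nat.card ((cz R).subgroupOf (TT M R θ)) = Nat.card (cz R) :=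
      Nat.card_congr (Subgroup.subgroupOfEquivOfLe h1).toEquiv
    rw [h3] at h2
    exact h2
  have hC0 : 0 < Nat.card (cz R) := Nat.card_pos
  have hm0 : 0 < Nat.card (Cz (cz R) y) := Nat.card_pos
  have hkq : k * q = (cz R).relIndex (TT M R θ) := by
    rw [hq, ← hrel] at hk
    have h1 : (Nat.card (cz R) * Nat.card (Cz (cz R) y)) * (k * q) =
        (Nat.card (cz R) * Nat.card (Cz (cz R) y)) * (cz R).relIndex (TT M R θ) := by
      calc (Nat.card (cz R) * Nat.card (Cz (cz R) y)) * (k * q) = k * (Nat.card (cz R) * (Nat.card (Cz (cz R) y) * q)) := by ring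
        _ = Nat.card (cz R) * (cz R).relIndex (TT M R θ) * Nat.card (Cz (cz R) y) := hk
        _ = _ := by ring
    exact Nat.eq_of_mul_eq_mul_left (Nat.mul_pos hC0 hm0) h1
  rw [← hkq] at hdiv
  have hpq : p ∣ q := (hS.pr.dvd_mul.1 hdiv).resolve_left hpk
  have hz0 : Nat.card (Cz (TT M R θ) y) ≠ 0 := Nat.card_pos.ne'
  apply pow_succ_padicValNat_not_dvd (p := p) hz0
  rw [pow_succ, ← hR'c]
  have h5 : Nat.card R' * p ∣ Nat.card (Cz (cz R) y) * q := mul_dvd_mul hdvd1 hpq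
  rwa [← hq] at h5

end Pool.Agent.FI
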